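import Mathlib

/-! Coverings of the conjugacy class of a `p`-element by proper subgroups: commutator subgroups
`[N, y]` for an abelian normal subgroup `N`. -/

set_option autoImplicit false

namespace Pool.Agent.X256.Gam

open Subgroup

universe u

section
variable {G : Type u} [Group G]

/-- the commutator map `n ↦ [y, n⁻¹]` on an abelian normal subgroup -/
def phi (N : Subgroup G) (hN : N.Normal) (hab : ∀ a ∈ N, ∀ b ∈ N, a * b = b * a) (y : G) :
    N →* G where
  toFun n := y⁻¹ * n * y * (n : G)⁻¹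
  map_one' := by simp
  map_mul' a b := by
    have h1 : y⁻¹ * b * y * (b : G)⁻¹ ∈ N := by
      refine N.mul_mem ?_ (N.inv_mem b.2)
      simpa using hN.conj_mem b.1 b.2 y⁻¹
    have h2 := hab (a : G)⁻¹ (N.inv_mem a.2) _ h1
    have h3 : (y⁻¹ * a * y * (a : G)⁻¹) * (y⁻¹ * b * y * (b : G)⁻¹) =
        y⁻¹ * a * y * ((a : G)⁻¹ * (y⁻¹ * b * y * (b : G)⁻¹)) := by group
    rw [h3, h2]
    simp only [Subgroup.coe_mul]
    group

/-- the subgroup `[N, y]` -/
def I (N : Subgroup G) (hN : N.Normal) (hab : ∀ a ∈ N, ∀ b ∈ N, a * b = b * a) (y : G) :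
    Subgroup G := (phi N hN hab y).range

/-- the conjugates of `y` under `N` -/
def R (N : Subgroup G) (y : G) : Set G := {r | ∃ n ∈ N, r = n * y * n⁻¹}

variable {N : Subgroup G} {hN : N.Normal} {hab : ∀ a ∈ N, ∀ b ∈ N, a * b = b * a}

theorem mem_I {y i : G} : i ∈ I N hN hab y ↔ ∃ n ∈ N, y⁻¹ * n * y * n⁻¹ = i := by
  unfold I
  rw [MonoidHom.mem_range]
  constructor
  · rintro ⟨n, hn⟩; exact ⟨n, n.2, hn⟩
  · rintro ⟨n, h, hn⟩; exact ⟨⟨n, h⟩, hn⟩

theorem I_le {y : G} : I N hN hab y ≤ N := by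
  intro i hi
  obtain ⟨n, hn, rfl⟩ := mem_I.1 hi
  refine N.mul_mem ?_ (N.inv_mem hn)
  simpa using hN.conj_mem n hn y⁻¹

theorem R_eq {y : G} : R N y = (fun i => y * i) '' (I N hN hab y : Set G) := by
  ext r
  constructor
  · rintro ⟨n, hn, rfl⟩
    exact ⟨y⁻¹ * n * y * n⁻¹, mem_I.2 ⟨n, hn, rfl⟩, by simp only; group⟩
  · rintro ⟨i, hi, rfl⟩
    obtain ⟨n, hn, rfl⟩ := mem_I.1 hi
    exact ⟨n, hn, by simp only; group⟩

theorem ncard_R {y : G} : (R N y).ncard = Nat.card (I N hN hab y) := by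
  rw [R_eq (hN := hN) (hab := hab), Set.ncard_image_of_injective _ (mul_right_injective y)]
  rfl

theorem self_mem_R (N : Subgroup G) (y : G) : y ∈ R N y := ⟨1, N.one_mem, by simp⟩

theorem ncard_R_conj [Finite G] (hN : N.Normal) (y g : G) :
    (R N (g * y * g⁻¹)).ncard = (R N y).ncard := by
  have : R N (g * y * g⁻¹) = (fun r => g * r * g⁻¹) '' R N y := by
    ext r
    constructor
    · rintro ⟨n, hn, rfl⟩
      refine ⟨(g⁻¹ * n * g) * y * (g⁻¹ * n * g)⁻¹, ⟨_, ?_, rfl⟩, ?_⟩
      · simpa using hN.conj_mem n hn g⁻¹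
      · simp only; group
    · rintro ⟨r, ⟨n, hn, rfl⟩, rfl⟩
      refine ⟨g * n * g⁻¹, hN.conj_mem n hn g, ?_⟩
      simp only; group
  rw [this]
  apply Set.ncard_image_of_injective
  intro a b hab
  simpa using hab

/-- the conjugation by powers -/
theorem iter_conj (y i : G) (m : ℕ) : (fun i : G => y⁻¹ * i * y)^[m] i = (y ^ m)⁻¹ * i * y ^ m := by
  induction m with
  | zero => simp
  | succ m ih =>
    rw [Function.iterate_succ_apply', ih]
    simp only [pow_succ]
    group

theorem comm_of_card_le [Finite G] {p : ℕ} (hp : p.Prime) {y : G} {k : ℕ} (hy : y ^ p ^ k = 1)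
    (hc : Nat.card (I N hN hab y) ≤ p) {i : G} (hi : i ∈ I N hN hab y) : y * i = i * y := by
  classical
  by_cases h1 : i = 1
  · simp [h1]
  set f : G → G := fun i => y⁻¹ * i * y with hf
  have hfI : ∀ i ∈ I N hN hab y, f i ∈ I N hN hab y := by
    intro i hi
    obtain ⟨n, hn, rfl⟩ := mem_I.1 hi
    refine mem_I.2 ⟨y⁻¹ * n * y, ?_, ?_⟩
    · simpa using hN.conj_mem n hn y⁻¹
    · simp only [hf]; group
  have hit : ∀ m, f^[m] i ∈ I N hN hab y := by
    intro m
    induction m with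
    | zero => exact hi
    | succ m ih => rw [Function.iterate_succ_apply']; exact hfI _ ih
  have hne : ∀ m, f^[m] i ≠ 1 := by
    intro m hm
    rw [hf, iter_conj] at hm
    apply h1
    have : i = y ^ m * ((y ^ m)⁻¹ * i * y ^ m) * (y ^ m)⁻¹ := by group
    rw [this, hm]; group
  have hper : Function.IsPeriodicPt f (p ^ k) i := by
    show f^[p ^ k] i = i
    rw [hf, iter_conj, hy]; simp
  have hd := hper.minimalPeriod_dvd
  obtain ⟨j, hjk, hj⟩ := (Nat.dvd_prime_pow hp).1 hd
  rcases Nat.eq_zero_or_pos j with h0 | hpos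
  · rw [h0, pow_zero] at hj
    have h2 : f i = i := Function.minimalPeriod_eq_one_iff_isFixedPt.1 hj
    simp only [hf] at h2
    calc y * i = y * (y⁻¹ * i * y) := by rw [h2]
      _ = i * y := by group
  · exfalso
    have hge : p ≤ Function.minimalPeriod f i := by
      rw [hj]
      calc p = p ^ 1 := (pow_one p).symm
        _ ≤ p ^ j := Nat.pow_le_pow_right hp.pos hpos
    have hinj := Function.iterate_injOn_Iio_minimalPeriod (f := f) (x := i)
    set S : Set G := (fun m => f^[m] i) '' Set.Iio (Function.minimalPeriod f i) with hS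
    have hSc : S.ncard = Function.minimalPeriod f i := by
      rw [hS, hinj.ncard_image, Set.ncard_eq_toFinset_card']
      simp
    have h1S : (1 : G) ∉ S := by
      rintro ⟨m, -, hm⟩
      exact hne m hm
    have hsub : insert 1 S ⊆ (I N hN hab y : Set G) := by
      intro z hz
      rcases hz with rfl | ⟨m, -, rfl⟩
      · exact one_mem _
      · exact hit m
    have h3 := Set.ncard_le_ncard hsub (Set.toFinite _)
    rw [Set.ncard_insert_of_notMem h1S (Set.toFinite _), hSc] at h3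
    have h4 : (I N hN hab y : Set G).ncard = Nat.card (I N hN hab y) := rfl
    omega

theorem pow_eq_one_of_card_le [Finite G] {p : ℕ} (hp : p.Prime) {y : G} {k : ℕ}
    (hy : y ^ p ^ k = 1) (hc : Nat.card (I N hN hab y) ≤ p) {i : G} (hi : i ∈ I N hN hab y) :
    i ^ p ^ k = 1 := by
  have hcomm : Commute y i := comm_of_card_le hp hy hc hi
  obtain ⟨n, hn, hi'⟩ := mem_I.1 hi
  have h1 : y * i = n * y * n⁻¹ := by rw [← hi']; group
  have h2 : (y * i) ^ p ^ k = 1 := by rw [h1, conj_pow, hy]; simp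
  rw [hcomm.mul_pow, hy, one_mul] at h2
  exact h2

/-- if `[N, y]` has at most `p` elements, each element not `1` generates it -/
theorem gen_of_card_le [Finite G] {p : ℕ} (hp : p.Prime) {y : G} {k : ℕ}
    (hy : y ^ p ^ k = 1) (hc : Nat.card (I N hN hab y) ≤ p) {i : G} (hi : i ∈ I N hN hab y)
    (h1 : i ≠ 1) : Nat.card (I N hN hab y) = p ∧ ∀ w ∈ I N hN hab y, ∃ m : ℕ, i ^ m = w := by
  have h2 := pow_eq_one_of_card_le hp hy hc hi
  have hd : orderOf i ∣ p ^ k := orderOf_dvd_of_pow_eq_one h2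
  obtain ⟨j, -, hj⟩ := (Nat.dvd_prime_pow hp).1 hd
  have hpos : 0 < j := by
    rcases Nat.eq_zero_or_pos j with h0 | h
    · rw [h0, pow_zero, orderOf_eq_one_iff] at hj; exact absurd hj h1
    · exact h
  have hge : p ≤ orderOf i := by
    rw [hj]
    calc p = p ^ 1 := (pow_one p).symm
      _ ≤ p ^ j := Nat.pow_le_pow_right hp.pos hpos
  have hle : zpowers i ≤ I N hN hab y := by
    rw [zpowers_le]; exact hi
  have hcz : Nat.card (zpowers i) = orderOf i := Nat.card_zpowers i
  have heq : zpowers i = I N hN hab y :=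
    Subgroup.eq_of_le_of_card_ge hle (by rw [hcz]; omega)
  refine ⟨?_, ?_⟩
  · rw [← heq, hcz]
    rw [← heq, hcz] at hc
    omega
  · intro w hw
    rw [← heq] at hw
    exact (Submonoid.mem_powers_iff _ _).1 (mem_powers_iff_mem_zpowers.2 hw)
end

end Pool.Agent.X256.Gam
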