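import Pool.Agent.X256.Gam.Main

/-! Induction: coverings of `x^G` by at most `p` proper subgroups can be replaced by coverings whose
members contain a given soluble normal subgroup. -/

set_option autoImplicit false

namespace Pool.Agent.X256.Gam

open Subgroup

universe u

/-- an abelian minimal normal subgroup inside a soluble normal subgroup -/
theorem exists_min {G : Type u} [Group G] [Finite G] (R : Subgroup G) (hR : R.Normal)
    (hs : Group.IsSolvable R) (h0 : R ≠ ⊥) :
    ∃ N : Subgroup G, N.Normal ∧ N ≤ R ∧ N ≠ ⊥ ∧ (∀ a ∈ N, ∀ b ∈ N, a * b = b * a) ∧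
      ∀ M : Subgroup G, M.Normal → M ≤ N → M ≠ ⊥ → M = N := by
  classical
  have hs := (Group.IsSolvable.solvable (G := R))
  have hn0 : Nat.find hs ≠ 0 := by
    intro hz
    have h1 := Nat.find_spec hs
    rw [hz, derivedSeries_zero] at h1
    apply h0
    rw [eq_bot_iff]
    intro r hr
    have h2 : (⟨r, hr⟩ : R) ∈ (⊥ : Subgroup R) := by rw [← h1]; trivial
    rw [mem_bot] at h2 ⊢
    exact congrArg Subtype.val h2
  obtain ⟨m, hm⟩ := Nat.exists_eq_succ_of_ne_zero hn0
  have hD : derivedSeries R m ≠ ⊥ := Nat.find_min hs (by omega)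
  have hD' : derivedSeries R (m + 1) = ⊥ := by
    have := Nat.find_spec hs
    rwa [hm] at this
  rw [derivedSeries_succ, commutator_eq_bot_iff_le_centralizer] at hD'
  have := hR
  have hDn : ((derivedSeries R m).map R.subtype).Normal := inferInstance
  have hDne : (derivedSeries R m).map R.subtype ≠ ⊥ := by
    intro h
    apply hD
    rwa [Subgroup.map_eq_bot_iff_of_injective _ R.subtype_injective] at h
  let S : Set (Subgroup G) := {M | M.Normal ∧ M ≠ ⊥ ∧ M ≤ (derivedSeries R m).map R.subtype}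
  obtain ⟨N, hNS, hmin⟩ := (wellFounded_lt (α := Subgroup G)).has_min S ⟨_, hDn, hDne, le_rfl⟩
  refine ⟨N, hNS.1, ?_, hNS.2.1, ?_, ?_⟩
  · refine hNS.2.2.trans ?_
    rintro _ ⟨a, -, rfl⟩
    exact a.2
  · intro a ha b hb
    obtain ⟨a', ha', rfl⟩ := hNS.2.2 ha
    obtain ⟨b', hb', rfl⟩ := hNS.2.2 hb
    have h1 := mem_centralizer_iff.1 (hD' ha') b' hb'
    have h2 := congrArg R.subtype h1
    rw [map_mul, map_mul] at h2
    exact h2.symm
  · intro M hM hMN hM0
    by_contra hne
    exact hmin M ⟨hM, hM0, hMN.trans hNS.2.2⟩ (lt_of_le_of_ne hMN hne)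

theorem cover_thin : ∀ (n : ℕ) (G : Type u) [Group G] [Finite G] (R : Subgroup G), R.Normal →
    Group.IsSolvable R → Nat.card G = n → ∀ (p k : ℕ), p.Prime → ∀ x : G, x ^ p ^ k = 1 →
    normalClosure {x} = ⊤ → ∀ s : Finset (Subgroup G), (∀ H ∈ s, H ≠ ⊤) →
    (∀ g : G, ∃ H ∈ s, g * x * g⁻¹ ∈ H) → s.card ≤ p →
    ∃ t : Finset (Subgroup G), t.card ≤ s.card ∧ (∀ H ∈ t, H ≠ ⊤ ∧ R ≤ H) ∧
      ∀ g : G, ∃ H ∈ t, g * x * g⁻¹ ∈ H := by
  intro n
  induction n using Nat.strong_induction_on with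
  | _ n ih =>
  intro G _ _ R hR hRs hn p k hp x hk hcl s hs hcov hsp
  classical
  by_cases hbot : R = ⊥
  · exact ⟨s, le_rfl, fun H hH => ⟨hs H hH, by rw [hbot]; exact bot_le⟩, hcov⟩
  obtain ⟨N, hN, hNR, hN0, hab, hmin⟩ := exists_min R hR hRs hbot
  have hM : ∀ H : Subgroup G, ∃ M : Subgroup G, H ≠ ⊤ → IsCoatom M ∧ H ≤ M := by
    intro H
    rcases eq_top_or_exists_le_coatom H with h | ⟨M, h1, h2⟩
    · exact ⟨⊤, fun h' => absurd h h'⟩
    · exact ⟨M, fun _ => ⟨h1, h2⟩⟩
  choose f hf using hM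
  have ht : ∀ H ∈ s.image f, IsCoatom H := by
    intro H hH
    obtain ⟨H', hH', rfl⟩ := Finset.mem_image.1 hH
    exact (hf H' (hs H' hH')).1
  have htcov : ∀ g : G, ∃ H ∈ s.image f, g * x * g⁻¹ ∈ H := by
    intro g
    obtain ⟨H, hH, hg⟩ := hcov g
    exact ⟨f H, Finset.mem_image_of_mem _ hH, (hf H (hs H hH)).2 hg⟩
  have hc1 : (s.image f).card ≤ s.card := Finset.card_image_le
  have hstep := main_step hN hab hmin hp hk hcl (s.image f) ht htcov (hc1.trans hsp)
  have := hN
  set t₁ := (s.image f).filter (fun H => N ≤ H) with ht₁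
  have hc2 : t₁.card ≤ (s.image f).card := Finset.card_filter_le _ _
  set t₂ := t₁.image (Subgroup.map (QuotientGroup.mk' N)) with ht₂
  have hc3 : t₂.card ≤ t₁.card := Finset.card_image_le
  have hsur : Function.Surjective (QuotientGroup.mk' N) := QuotientGroup.mk'_surjective N
  have hlt : Nat.card (G ⧸ N) < n := by
    have h1 := Subgroup.card_eq_card_quotient_mul_card_subgroup N
    have h2 : 1 < Nat.card N := (Subgroup.one_lt_card_iff_ne_bot N).2 hN0
    have h3 : 0 < Nat.card (G ⧸ N) := Nat.card_pos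
    rw [← hn, h1]
    nlinarith
  have hRn : (R.map (QuotientGroup.mk' N)).Normal := hR.map _ hsur
  have hRs' : Group.IsSolvable (R.map (QuotientGroup.mk' N)) :=
    Group.isSolvable_of_surjective ((QuotientGroup.mk' N).subgroupMap_surjective R)
  obtain ⟨t₃, h31, h32, h33⟩ := ih _ hlt (G ⧸ N) (R.map (QuotientGroup.mk' N)) hRn hRs' rfl p k hp
    (QuotientGroup.mk' N x) (by rw [← map_pow, hk, map_one])
    (by
      have h1 := Subgroup.map_normalClosure ({x} : Set G) (QuotientGroup.mk' N) hsur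
      rw [hcl, Set.image_singleton, ← MonoidHom.range_eq_map,
        MonoidHom.range_eq_top.2 hsur] at h1
      exact h1.symm)
    t₂
    (by
      intro H hH
      rw [ht₂, Finset.mem_image] at hH
      obtain ⟨H', hH', rfl⟩ := hH
      rw [ht₁, Finset.mem_filter] at hH'
      intro htop
      have h1 : (H'.map (QuotientGroup.mk' N)).comap (QuotientGroup.mk' N) = H' :=
        Subgroup.comap_map_eq_self (by rw [QuotientGroup.ker_mk']; exact hH'.2)
      rw [htop, Subgroup.comap_top] at h1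
      exact (ht H' hH'.1).1 h1.symm)
    (by
      intro g
      obtain ⟨g, rfl⟩ := hsur g
      obtain ⟨H, hH, hNH, hg⟩ := hstep g
      refine ⟨H.map (QuotientGroup.mk' N), ?_, ?_⟩
      · exact Finset.mem_image_of_mem _ (Finset.mem_filter.2 ⟨hH, hNH⟩)
      · rw [← map_inv, ← map_mul, ← map_mul]
        exact Subgroup.mem_map_of_mem _ hg)
    (by omega)
  refine ⟨t₃.image (Subgroup.comap (QuotientGroup.mk' N)), ?_, ?_, ?_⟩
  · have : (t₃.image (Subgroup.comap (QuotientGroup.mk' N))).card ≤ t₃.card :=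
      Finset.card_image_le
    omega
  · intro H hH
    obtain ⟨H', hH', rfl⟩ := Finset.mem_image.1 hH
    obtain ⟨h1, h2⟩ := h32 H' hH'
    refine ⟨?_, ?_⟩
    · intro htop
      apply h1
      rw [← Subgroup.map_comap_eq_self_of_surjective hsur H', htop, ← MonoidHom.range_eq_map,
        MonoidHom.range_eq_top.2 hsur]
    · rw [← Subgroup.map_le_iff_le_comap]; exact h2
  · intro g
    obtain ⟨H, hH, hg⟩ := h33 (QuotientGroup.mk' N g)
    refine ⟨H.comap (QuotientGroup.mk' N), Finset.mem_image_of_mem _ hH, ?_⟩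
    rw [Subgroup.mem_comap, map_mul, map_mul, map_inv]
    exact hg

end Pool.Agent.X256.Gam
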