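import Pool.Agent.X256.Gam.Basic

/-! The main step: a covering of `x^G` by at most `p` maximal subgroups can be thinned out to those
containing a given abelian minimal normal subgroup `N`. -/

set_option autoImplicit false

namespace Pool.Agent.X256.Gam

open Subgroup

universe u

section
variable {G : Type u} [Group G] {N : Subgroup G}

theorem sup_top {H : Subgroup G} (hH : IsCoatom H) (h : ¬ N ≤ H) : N ⊔ H = ⊤ := by
  have : H < N ⊔ H := lt_of_le_of_ne le_sup_right (fun e => h (by rw [e]; exact le_sup_left))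
  exact hH.2 _ this

theorem inf_bot (hN : N.Normal) (hab : ∀ a ∈ N, ∀ b ∈ N, a * b = b * a)
    (hmin : ∀ M : Subgroup G, M.Normal → M ≤ N → M ≠ ⊥ → M = N) {H : Subgroup G}
    (hH : IsCoatom H) (h : ¬ N ≤ H) : H ⊓ N = ⊥ := by
  by_contra hne
  have hnorm : (H ⊓ N).Normal := by
    constructor
    intro a ha g
    have hg : g ∈ N ⊔ H := by rw [sup_top hH h]; trivial
    have := hN
    obtain ⟨n, hn, z, hz, rfl⟩ := mem_sup_of_normal_left.1 hg
    have hb : z * a * z⁻¹ ∈ N := hN.conj_mem a ha.2 z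
    have hb' : z * a * z⁻¹ ∈ H := H.mul_mem (H.mul_mem hz ha.1) (H.inv_mem hz)
    have : n * z * a * (n * z)⁻¹ = z * a * z⁻¹ := by
      have := hab n hn _ hb
      calc n * z * a * (n * z)⁻¹ = (n * (z * a * z⁻¹)) * n⁻¹ := by group
        _ = (z * a * z⁻¹ * n) * n⁻¹ := by rw [this]
        _ = _ := by group
    rw [this]; exact ⟨hb', hb⟩
  exact h ((hmin _ hnorm inf_le_right hne) ▸ inf_le_left)

theorem uniq (hN : N.Normal) (hab : ∀ a ∈ N, ∀ b ∈ N, a * b = b * a) {H : Subgroup G}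
    {y a b : G} (hHN : H ⊓ N = ⊥) (ha : a ∈ R N y) (hb : b ∈ R N y) (haH : a ∈ H) (hbH : b ∈ H) :
    a = b := by
  rw [R_eq (hN := hN) (hab := hab)] at ha hb
  obtain ⟨i, hi, rfl⟩ := ha
  obtain ⟨j, hj, rfl⟩ := hb
  have h1 : (y * i)⁻¹ * (y * j) ∈ H ⊓ N := ⟨H.mul_mem (H.inv_mem haH) hbH, by
     have : (y * i)⁻¹ * (y * j) = i⁻¹ * j := by group
     rw [this]; exact N.mul_mem (N.inv_mem (I_le hi)) (I_le hj)⟩
  rw [hHN, mem_bot] at h1
  exact inv_mul_eq_one.1 h1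

theorem eq_top_of_conj {x : G} (hcl : normalClosure {x} = ⊤) (K : Subgroup G)
    (h : ∀ g : G, g * x * g⁻¹ ∈ K) : K = ⊤ := by
  rw [eq_top_iff, ← hcl]
  unfold normalClosure
  rw [closure_le]
  intro z hz
  rw [Group.mem_conjugatesOfSet_iff] at hz
  obtain ⟨a, ha, hc⟩ := hz
  rw [Set.mem_singleton_iff] at ha
  subst ha
  obtain ⟨c, rfl⟩ := isConj_iff.1 hc
  exact h c

theorem main_step [Finite G] (hN : N.Normal)
    (hab : ∀ a ∈ N, ∀ b ∈ N, a * b = b * a)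
    (hmin : ∀ M : Subgroup G, M.Normal → M ≤ N → M ≠ ⊥ → M = N) {p k : ℕ} (hp : p.Prime)
    {x : G} (hx : x ^ p ^ k = 1) (hcl : normalClosure {x} = ⊤) (s : Finset (Subgroup G))
    (hs : ∀ H ∈ s, IsCoatom H) (hcov : ∀ g : G, ∃ H ∈ s, g * x * g⁻¹ ∈ H) (hsp : s.card ≤ p) :
    ∀ g : G, ∃ H ∈ s, N ≤ H ∧ g * x * g⁻¹ ∈ H := by
  classical
  by_contra hcon
  push Not at hcon
  obtain ⟨g₀, hg₀⟩ := hcon
  have hpow : ∀ g : G, (g * x * g⁻¹) ^ p ^ k = 1 := by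
    intro g; rw [conj_pow, hx]; simp
  have hR : ∀ g r, r ∈ R N (g * x * g⁻¹) → ∃ g' : G, r = g' * x * g'⁻¹ := by
    rintro g r ⟨n, hn, rfl⟩
    exact ⟨n * g, by group⟩
  have hF' : ∀ r : G, ∃ H : Subgroup G, (∃ H' ∈ s, r ∈ H') → H ∈ s ∧ r ∈ H := by
    intro r
    by_cases h : ∃ H' ∈ s, r ∈ H'
    · obtain ⟨H, h1, h2⟩ := h; exact ⟨H, fun _ => ⟨h1, h2⟩⟩
    · exact ⟨⊥, fun h' => absurd h' h⟩
  choose F hF'' using hF'
  have hF : ∀ g r, r ∈ R N (g * x * g⁻¹) → F r ∈ s ∧ r ∈ F r := by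
    intro g r hr
    obtain ⟨g', rfl⟩ := hR g r hr
    exact hF'' _ (hcov g')
  set y₀ := g₀ * x * g₀⁻¹ with hy₀
  have hnle : ∀ r ∈ R N y₀, ∀ H ∈ s, r ∈ H → ¬ N ≤ H := by
    rintro r ⟨n, hn, rfl⟩ H hH hr hle
    apply hg₀ H hH hle
    have : y₀ = n⁻¹ * (n * y₀ * n⁻¹) * n := by group
    rw [this]
    exact H.mul_mem (H.mul_mem (H.inv_mem (hle hn)) hr) (hle hn)
  have hcard0 : (R N y₀).ncard ≤ (s.filter (fun H => ¬ N ≤ H)).card := by
    rw [← Set.ncard_coe_finset]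
    apply Set.ncard_le_ncard_of_injOn F
    · intro r hr
      have h1 := hF g₀ r hr
      simp only [Finset.coe_filter, Set.mem_ofPred_eq]
      exact ⟨h1.1, hnle r hr _ h1.1 h1.2⟩
    · intro r hr r' hr' he
      have h1 := hF g₀ r hr
      have h2 := hF g₀ r' hr'
      have h3 := inf_bot hN hab hmin (hs _ h1.1) (hnle r hr _ h1.1 h1.2)
      refine uniq hN hab h3 hr hr' h1.2 ?_
      rw [he]; exact h2.2
  have hfc : (s.filter (fun H => ¬ N ≤ H)).card ≤ s.card := Finset.card_filter_le _ _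
  have hI0 : Nat.card (I N hN hab y₀) ≤ p := by
    rw [← ncard_R]; omega
  by_cases hbot : I N hN hab y₀ = ⊥
  · -- `N` is central
    have hcen : ∀ g : G, ∀ n ∈ N, g * n = n * g := by
      have h1 : centralizer (N : Set G) = ⊤ := by
        apply eq_top_of_conj hcl
        intro g
        rw [mem_centralizer_iff]
        intro n hn
        -- `n' = (g₀ g⁻¹) n (g₀ g⁻¹)⁻¹` commutes with `y₀`
        have h2 : g₀ * g⁻¹ * n * (g₀ * g⁻¹)⁻¹ ∈ N := hN.conj_mem n hn (g₀ * g⁻¹)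
        have h3 : y₀⁻¹ * (g₀ * g⁻¹ * n * (g₀ * g⁻¹)⁻¹) * y₀ * (g₀ * g⁻¹ * n * (g₀ * g⁻¹)⁻¹)⁻¹ ∈
            I N hN hab y₀ := mem_I.2 ⟨_, h2, rfl⟩
        rw [hbot, mem_bot] at h3
        have h4 : (g₀ * g⁻¹ * n * (g₀ * g⁻¹)⁻¹) * y₀ = y₀ * (g₀ * g⁻¹ * n * (g₀ * g⁻¹)⁻¹) := by
          have h5 := mul_inv_eq_one.1 h3
          calc (g₀ * g⁻¹ * n * (g₀ * g⁻¹)⁻¹) * y₀
              = y₀ * (y₀⁻¹ * (g₀ * g⁻¹ * n * (g₀ * g⁻¹)⁻¹) * y₀) := by group
            _ = _ := by rw [h5]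
        rw [hy₀] at h4
        have h6 : n * (g * x * g⁻¹) = (g₀ * g⁻¹)⁻¹ *
            ((g₀ * g⁻¹ * n * (g₀ * g⁻¹)⁻¹) * (g₀ * x * g₀⁻¹)) * (g₀ * g⁻¹) := by group
        rw [h6, h4]; group
      intro g n hn
      have h2 : g ∈ centralizer (N : Set G) := by rw [h1]; trivial
      exact (mem_centralizer_iff.1 h2 n hn).symm
    obtain ⟨h1, h2⟩ := hF g₀ y₀ (self_mem_R N y₀)
    have h3 := hnle y₀ (self_mem_R N y₀) _ h1 h2
    have hco := hs _ h1
    set H := F y₀ with hH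
    apply hco.1
    apply eq_top_of_conj hcl
    intro g
    have hg : g * g₀⁻¹ ∈ N ⊔ H := by rw [sup_top hco h3]; trivial
    have := hN
    obtain ⟨n, hn, z, hz, hnz⟩ := mem_sup_of_normal_left.1 hg
    have h4 : g * x * g⁻¹ = n * (z * y₀ * z⁻¹) * n⁻¹ := by
      have : g = n * z * g₀ := by rw [hnz]; group
      rw [this, hy₀]; group
    rw [h4, ← hcen (z * y₀ * z⁻¹) n hn]
    have h5 : z * y₀ * z⁻¹ * n * n⁻¹ = z * y₀ * z⁻¹ := by group
    rw [h5]
    exact H.mul_mem (H.mul_mem hz h2) (H.inv_mem hz)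
  · obtain ⟨i, hi, hi1⟩ : ∃ i : G, i ∈ I N hN hab y₀ ∧ i ≠ 1 := by
      by_contra h
      push Not at h
      exact hbot ((Subgroup.eq_bot_iff_forall _).2 h)
    have hIp := (gen_of_card_le hp (hpow g₀) hI0 hi hi1).1
    have hRp0 : (R N y₀).ncard = p := by rw [ncard_R (hN := hN) (hab := hab), hIp]
    have hRp : ∀ g, (R N (g * x * g⁻¹)).ncard = p := by
      intro g
      rw [ncard_R_conj hN, ← ncard_R_conj hN x g₀, hRp0]
    have hIp' : ∀ g, Nat.card (I N hN hab (g * x * g⁻¹)) ≤ p := by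
      intro g; rw [← ncard_R, hRp g]
    have hscard : s.card = p := by omega
    have hall : ∀ H ∈ s, ¬ N ≤ H := by
      have h1 : s.filter (fun H => ¬ N ≤ H) = s :=
        Finset.eq_of_subset_of_card_le (Finset.filter_subset _ _) (by omega)
      intro H hH
      rw [← h1, Finset.mem_filter] at hH
      exact hH.2
    have hib : ∀ H ∈ s, H ⊓ N = ⊥ := fun H hH => inf_bot hN hab hmin (hs H hH) (hall H hH)
    have hsurj : ∀ g, ∀ H ∈ s, ∃ r ∈ R N (g * x * g⁻¹), F r = H := by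
      intro g H hH
      have h1 : F '' R N (g * x * g⁻¹) ⊆ (s : Set (Subgroup G)) := by
        rintro _ ⟨r, hr, rfl⟩
        exact (hF g r hr).1
      have h2 : Set.InjOn F (R N (g * x * g⁻¹)) := by
        intro r hr r' hr' he
        have h1 := hF g r hr
        have h2 := hF g r' hr'
        refine uniq hN hab (hib _ h1.1) hr hr' h1.2 ?_
        rw [he]; exact h2.2
      have h3 := Set.eq_of_subset_of_ncard_le h1
        (by rw [h2.ncard_image, hRp g, Set.ncard_coe_finset, hscard]) (Finset.finite_toSet _)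
      have h4 : H ∈ F '' R N (g * x * g⁻¹) := by rw [h3]; exact hH
      exact h4
    have hE : ∀ g, ∀ H ∈ s, ∃ r ∈ R N (g * x * g⁻¹), r ∈ H := by
      intro g H hH
      obtain ⟨r, hr, hrH⟩ := hsurj g H hH
      exact ⟨r, hr, hrH ▸ (hF g r hr).2⟩
    have hD : ∀ g, ∀ H ∈ s, ∀ H' ∈ s, g * x * g⁻¹ ∈ H → g * x * g⁻¹ ∈ H' → H = H' := by
      have key : ∀ g, ∀ H ∈ s, g * x * g⁻¹ ∈ H → F (g * x * g⁻¹) = H := by
        intro g H hH hm
        obtain ⟨r, hr, hrH⟩ := hsurj g H hH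
        have h1 := uniq hN hab (hib H hH) hr (self_mem_R N _) (hrH ▸ (hF g r hr).2) hm
        rw [← h1, hrH]
      intro g H hH H' hH' h1 h2
      rw [← key g H hH h1, key g H' hH' h2]
    obtain ⟨H₁, hH₁, H₂, hH₂, hne⟩ := Finset.one_lt_card.1 (by rw [hscard]; exact hp.one_lt)
    obtain ⟨a, ⟨a₁, ha₁⟩, haH⟩ : ∃ a, (∃ a₁, a = a₁ * x * a₁⁻¹) ∧ a ∈ H₁ := by
      obtain ⟨r, hr, hr1⟩ := hE g₀ H₁ hH₁
      exact ⟨r, hR g₀ r hr, hr1⟩
    subst ha₁
    obtain ⟨a', ha', ha'H⟩ := hE a₁ H₂ hH₂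
    rw [R_eq (hN := hN) (hab := hab)] at ha'
    obtain ⟨v, hv, rfl⟩ := ha'
    simp only at ha'H
    set a := a₁ * x * a₁⁻¹ with ha
    have hvN : v ∈ N := I_le hv
    have hv1 : v ≠ 1 := by
      intro h
      rw [h, mul_one] at ha'H
      exact hne (hD a₁ H₁ hH₁ H₂ hH₂ haH ha'H)
    have hav : Commute a v := comm_of_card_le hp (hpow a₁) (hIp' a₁) hv
    have hcomm : ∀ b₁, b₁ * x * b₁⁻¹ ∈ H₁ → b₁ * x * b₁⁻¹ * v = v * (b₁ * x * b₁⁻¹) := by
      intro b₁ hbH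
      obtain ⟨b', hb', hb'H⟩ := hE b₁ H₂ hH₂
      rw [R_eq (hN := hN) (hab := hab)] at hb'
      obtain ⟨w, hw, rfl⟩ := hb'
      simp only at hb'H
      set b := b₁ * x * b₁⁻¹ with hb
      have hwN : w ∈ N := I_le hw
      have hc : b⁻¹ * v * b * v⁻¹ ∈ I N hN hab b := mem_I.2 ⟨v, hvN, rfl⟩
      by_contra hncom
      have hc1 : b⁻¹ * v * b * v⁻¹ ≠ 1 := by
        intro h
        apply hncom
        have h5 := mul_inv_eq_one.1 h
        calc b * v = b * (b⁻¹ * v * b) := by rw [h5]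
          _ = v * b := by group
      obtain ⟨m, hm⟩ := (gen_of_card_le hp (hpow b₁) (hIp' b₁) hc hc1).2 w⁻¹ (inv_mem hw)
      have hphi : b⁻¹ * v ^ m * b * (v ^ m)⁻¹ = (b⁻¹ * v * b * v⁻¹) ^ m := by
        have := map_pow (phi N hN hab b) ⟨v, hvN⟩ m
        simpa [phi] using this
      have e1 : a ^ m * b * (a ^ m)⁻¹ ∈ H₁ :=
        H₁.mul_mem (H₁.mul_mem (H₁.pow_mem haH m) hbH) (H₁.inv_mem (H₁.pow_mem haH m))
      have e2 : (a * v) ^ m * (b * w) * ((a * v) ^ m)⁻¹ ∈ H₂ :=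
        H₂.mul_mem (H₂.mul_mem (H₂.pow_mem ha'H m) hb'H) (H₂.inv_mem (H₂.pow_mem ha'H m))
      have e3 : (a * v) ^ m * (b * w) * ((a * v) ^ m)⁻¹ = a ^ m * b * (a ^ m)⁻¹ := by
        rw [hav.mul_pow]
        have e4 := hab w hwN (v ^ m)⁻¹ (N.inv_mem (N.pow_mem hvN m))
        calc a ^ m * v ^ m * (b * w) * (a ^ m * v ^ m)⁻¹
            = a ^ m * v ^ m * b * (w * (v ^ m)⁻¹) * (a ^ m)⁻¹ := by group
          _ = a ^ m * v ^ m * b * ((v ^ m)⁻¹ * w) * (a ^ m)⁻¹ := by rw [e4]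
          _ = a ^ m * b * ((b⁻¹ * v ^ m * b * (v ^ m)⁻¹) * w) * (a ^ m)⁻¹ := by group
          _ = a ^ m * b * (a ^ m)⁻¹ := by rw [hphi, hm]; group
      rw [e3] at e2
      have e5 : a ^ m * b * (a ^ m)⁻¹ = (a ^ m * b₁) * x * (a ^ m * b₁)⁻¹ := by
        rw [hb]; group
      rw [e5] at e1 e2
      exact hne (hD _ H₁ hH₁ H₂ hH₂ e1 e2)
    have hvc : centralizer ({v} : Set G) = ⊤ := by
      apply eq_top_of_conj hcl
      intro g
      rw [mem_centralizer_iff]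
      intro v' hv'
      rw [Set.mem_singleton_iff] at hv'
      subst hv'
      obtain ⟨r, ⟨n, hn, hr⟩, hr1⟩ := hE g H₁ hH₁
      have h1 : r = (n * g) * x * (n * g)⁻¹ := by rw [hr]; group
      rw [h1] at hr1
      have h2 := hcomm _ hr1
      rw [← h1] at h2
      have h3 : g * x * g⁻¹ = n⁻¹ * r * n := by rw [hr]; group
      have h4 := hab n hn v' hvN
      have h5 := hab n⁻¹ (N.inv_mem hn) v' hvN
      rw [h3]
      calc v' * (n⁻¹ * r * n) = (v' * n⁻¹) * r * n := by group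
        _ = n⁻¹ * (v' * r) * n := by rw [← h5]; group
        _ = n⁻¹ * r * (v' * n) := by rw [← h2]; group
        _ = _ := by rw [← h4]; group
    have hcenter : v ∈ Subgroup.center G := by
      rw [Subgroup.mem_center_iff]
      intro g
      have h2 : g ∈ centralizer ({v} : Set G) := by rw [hvc]; trivial
      exact (mem_centralizer_iff.1 h2 v rfl).symm
    have hM : N ⊓ Subgroup.center G = N := by
      have := hN
      apply hmin _ inferInstance inf_le_left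
      intro h
      have : v ∈ N ⊓ Subgroup.center G := ⟨hvN, hcenter⟩
      rw [h, mem_bot] at this
      exact hv1 this
    obtain ⟨n, hn, hn'⟩ := mem_I.1 hv
    apply hv1
    rw [← hn']
    have hnc : n ∈ N ⊓ Subgroup.center G := by rw [hM]; exact hn
    have h6 := Subgroup.mem_center_iff.1 hnc.2 a
    calc a⁻¹ * n * a * n⁻¹ = a⁻¹ * (n * a) * n⁻¹ := by group
      _ = 1 := by rw [← h6]; group
end

end Pool.Agent.X256.Gam
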